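import Pool.Agent.Helper41.Cluster4.Goals

/-! Packet L: Case II is impossible. -/

namespace Pool.Agent.Helper74.C4

open Module Pool.Agent.Helper65.Delone Pool.Agent.Helper41.Cluster4
open scoped RealInnerProductSpace

section

variable {E : Type*} [NormedAddCommGroup E] [InnerProductSpace ℝ E]

/-- first numerical estimate -/
theorem num1 {R W b d : ℝ} (hW : 0 < W) (hRW : 15 / 2 * W ≤ 2 * R) (hb : 0 < b)
    (hb2 : b ^ 2 = W ^ 2 / 2) (hd : 0 < d) (hd2 : d ^ 2 ≤ 5 / 2 * (R + b) ^ 2) :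
    d ^ 2 + 4 * b ^ 2 - 28 / 10 * (b * d) ≤ (2 * R - W) ^ 2 ∧
    d ^ 2 + 2 * b ^ 2 - 198 / 100 * (b * d) ≤ (2 * R - W) ^ 2 := by
  have hR : 15 / 4 * W ≤ R := by linarith
  have hR0 : 0 < R := by linarith
  have hb_lo : 7071 / 10000 * W ≤ b := by
    by_contra hcon
    push Not at hcon
    have : b ^ 2 < (7071 / 10000 * W) ^ 2 := by
      apply pow_lt_pow_left₀ hcon hb.le
      norm_num
    nlinarith [sq_nonneg W, mul_pos hW hW]
  have hb_hi : b ≤ 70711 / 100000 * W := by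
    by_contra hcon
    push Not at hcon
    have : (70711 / 100000 * W) ^ 2 < b ^ 2 := by
      apply pow_lt_pow_left₀ hcon (by positivity)
      norm_num
    nlinarith [sq_nonneg W, mul_pos hW hW]
  set e : ℝ := 15812 / 10000 * R + 1118082 / 1000000 * W with he
  have he0 : 0 < e := by positivity
  have hde : d ≤ e := by
    have h1 : d ^ 2 ≤ (15812 / 10000 * (R + b)) ^ 2 := by
      have : 0 ≤ (R + b) ^ 2 := sq_nonneg _
      nlinarith
    have h2 : d ≤ 15812 / 10000 * (R + b) := by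
      have h3 : 0 ≤ 15812 / 10000 * (R + b) := by positivity
      exact le_of_sq_le_sq h1 h3
    have h4 : 15812 / 10000 * b ≤ 1118082 / 1000000 * W := by
      nlinarith
    linarith
  have hWd : 0 < W * d := mul_pos hW hd
  have hbd : 7071 / 10000 * (W * d) ≤ b * d := by
    have := mul_le_mul_of_nonneg_right hb_lo hd.le
    linarith
  constructor
  · have h1 : d ^ 2 - 197988 / 100000 * (W * d) ≤ e ^ 2 - 197988 / 100000 * (W * e) := by
      have h2 : 0 ≤ (e - d) * (e + d - 197988 / 100000 * W) := by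
        apply mul_nonneg (by linarith)
        have : 197988 / 100000 * W ≤ e := by
          rw [he]; nlinarith
        linarith
      nlinarith
    have h3 : e ^ 2 - 197988 / 100000 * (W * e) + 2 * W ^ 2 ≤ (2 * R - W) ^ 2 := by
      rw [he]
      nlinarith [mul_nonneg (sub_nonneg.2 hR) hW.le, mul_nonneg (sub_nonneg.2 hR) hR0.le,
        mul_pos hW hW]
    nlinarith
  · have h1 : d ^ 2 - 1400058 / 1000000 * (W * d) ≤ e ^ 2 - 1400058 / 1000000 * (W * e) := by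
      have h2 : 0 ≤ (e - d) * (e + d - 1400058 / 1000000 * W) := by
        apply mul_nonneg (by linarith)
        have : 1400058 / 1000000 * W ≤ e := by
          rw [he]; nlinarith
        linarith
      nlinarith
    have h3 : e ^ 2 - 1400058 / 1000000 * (W * e) + W ^ 2 ≤ (2 * R - W) ^ 2 := by
      rw [he]
      nlinarith [mul_nonneg (sub_nonneg.2 hR) hW.le, mul_nonneg (sub_nonneg.2 hR) hR0.le,
        mul_pos hW hW]
    nlinarith

/-- a point of the same centre in a given direction -/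
theorem dirPt [FiniteDimensional ℝ E] {X : Set E} {R W b : ℝ} {Q : E → Submodule ℝ E} {c : E → E}
    (hF : Fr X (2 * R) W Q) (hC : Cen X (2 * R) W Q c)
    (hb : 0 < b) (hb2 : b ^ 2 = W ^ 2 / 2)
    (hD : ∀ x ∈ X, ∀ u ∈ Q x, ∃ z ∈ X, c z = c x ∧ Q z = Q x ∧
      99 / 100 * ‖c x - x‖ * ‖u‖ ≤ ⟪z - c x, u⟫)
    (x : E) (hx : x ∈ X) (v : E) :
    ∃ z ∈ X, c z = c x ∧ 7 / 10 * (b * ‖v‖) ≤ ⟪z - c x, v⟫ := by
  have hnb : ∀ x ∈ X, ‖c x - x‖ = b := by
    intro x hx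
    have h := hC.norm x hx
    rw [← hb2] at h
    exact (pow_left_inj₀ (norm_nonneg _) hb.le two_ne_zero).1 h
  obtain ⟨v1, hv1, v2, hv2, hv⟩ := (Q x).exists_add_mem_mem_orthogonal v
  obtain ⟨y, hy, hyW, hyQ⟩ := hF.partner x hx
  obtain ⟨hcy, hQy⟩ := hC.partner x hx y hy hyW hyQ
  have horth : ⟪v1, v2⟫ = 0 := Submodule.inner_right_of_mem_orthogonal hv1 hv2
  have hnorm : ‖v‖ ^ 2 = ‖v1‖ ^ 2 + ‖v2‖ ^ 2 := by
    rw [hv, norm_add_sq_real, horth]; ring
  have key : ∀ a : ℝ, 0 ≤ a → ‖v‖ ^ 2 ≤ 2 * a ^ 2 → 7 / 10 * ‖v‖ ≤ 99 / 100 * a := by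
    intro a ha h
    have h1 : (7 / 10 * ‖v‖) ^ 2 ≤ (99 / 100 * a) ^ 2 := by nlinarith [sq_nonneg a]
    exact le_of_sq_le_sq h1 (by positivity)
  rcases le_total (‖v2‖ ^ 2) (‖v1‖ ^ 2) with h | h
  · obtain ⟨z, hz, hcz, hQz, hzu⟩ := hD x hx v1 hv1
    refine ⟨z, hz, hcz, ?_⟩
    have hzm : z - c x ∈ Q x := by
      have := hC.mem z hz
      rw [hcz, hQz] at this
      have h2 := (Q x).neg_mem this
      rwa [neg_sub] at h2
    have h0 : ⟪z - c x, v2⟫ = 0 := Submodule.inner_right_of_mem_orthogonal hzm hv2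
    have hk := key ‖v1‖ (norm_nonneg _) (by linarith)
    rw [hnb x hx] at hzu
    have e1 : ⟪z - c x, v⟫ = ⟪z - c x, v1⟫ := by
      conv_lhs => rw [hv, inner_add_right, h0, add_zero]
    rw [e1]
    have := mul_le_mul_of_nonneg_left hk hb.le
    nlinarith
  · have hv2' : v2 ∈ Q y := by rw [hQy]; exact hv2
    obtain ⟨z, hz, hcz, hQz, hzu⟩ := hD y hy v2 hv2'
    rw [hcy] at hcz hzu
    refine ⟨z, hz, hcz, ?_⟩
    have hzm : z - c x ∈ (Q x)ᗮ := by
      have := hC.mem z hz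
      rw [hcz, hQz, hQy] at this
      have h2 := ((Q x)ᗮ).neg_mem this
      rwa [neg_sub] at h2
    have h0 : ⟪z - c x, v1⟫ = 0 := by
      rw [real_inner_comm]
      exact Submodule.inner_right_of_mem_orthogonal hv1 hzm
    have hk := key ‖v2‖ (norm_nonneg _) (by linarith)
    have hyb : ‖c x - y‖ = b := by rw [← hcy]; exact hnb y hy
    rw [hyb] at hzu
    have e1 : ⟪z - c x, v⟫ = ⟪z - c x, v2⟫ := by
      conv_lhs => rw [hv, inner_add_right, h0, zero_add]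
    rw [e1]
    have := mul_le_mul_of_nonneg_left hk hb.le
    nlinarith

/-- centres are far apart -/
theorem sepClaim [FiniteDimensional ℝ E] {X : Set E} {R W b : ℝ} {Q : E → Submodule ℝ E}
    {c : E → E}
    (hF : Fr X (2 * R) W Q) (hC : Cen X (2 * R) W Q c) (hRW : 15 / 2 * W ≤ 2 * R)
    (hb : 0 < b) (hb2 : b ^ 2 = W ^ 2 / 2)
    (hD : ∀ x ∈ X, ∀ u ∈ Q x, ∃ z ∈ X, c z = c x ∧ Q z = Q x ∧
      99 / 100 * ‖c x - x‖ * ‖u‖ ≤ ⟪z - c x, u⟫)
    (hP1 : ∀ x ∈ X, ∀ y ∈ X, ∀ z ∈ X, ‖y - x‖ = W → y - x ∉ Q x → ‖z - x‖ ≤ 2 * R - W →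
      ‖z - y‖ ≤ 2 * R - W → c z = c x)
    (hP2 : ∀ x ∈ X, ∀ z ∈ X, ‖z - x‖ ≤ 2 * R - W → c z - c x ∈ Q x)
    (x z : E) (hx : x ∈ X) (hz : z ∈ X) (hne : c x ≠ c z) :
    5 / 2 * (R + b) ^ 2 < ‖c x - c z‖ ^ 2 := by
  by_contra hcon
  push Not at hcon
  have hW := hF.W_pos
  have hnb : ∀ x ∈ X, ‖c x - x‖ = b := by
    intro x hx
    have h := hC.norm x hx
    rw [← hb2] at h
    exact (pow_left_inj₀ (norm_nonneg _) hb.le two_ne_zero).1 h
  have hnb' : ∀ x ∈ X, ‖x - c x‖ = b := by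
    intro x hx
    rw [norm_sub_rev]; exact hnb x hx
  set v := c z - c x with hv
  have hvn : ‖c x - c z‖ = ‖v‖ := norm_sub_rev _ _
  rw [hvn] at hcon
  have hv0 : 0 < ‖v‖ := by
    rw [norm_pos_iff, hv]
    exact sub_ne_zero.2 (Ne.symm hne)
  obtain ⟨num_1, num_2⟩ := num1 hW hRW hb hb2 hv0 hcon
  have hRW0 : 0 ≤ 2 * R - W := by linarith
  -- first pair
  obtain ⟨x1, hx1, hcx1, hix1⟩ := dirPt hF hC hb hb2 hD x hx v
  obtain ⟨z1, hz1, hcz1, hiz1⟩ := dirPt hF hC hb hb2 hD z hz (-v)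
  rw [norm_neg, inner_neg_right] at hiz1
  have hx1b : ‖x1 - c x‖ = b := by rw [← hcx1]; exact hnb' x1 hx1
  have hz1b : ‖z1 - c z‖ = b := by rw [← hcz1]; exact hnb' z1 hz1
  have hd1 : ‖x1 - z1‖ ≤ 2 * R - W := by
    apply le_of_sq_le_sq _ hRW0
    refine le_trans ?_ num_1
    have e : x1 - z1 = ((x1 - c x) - (z1 - c z)) - v := by rw [hv]; abel
    have h2 : ‖(x1 - c x) - (z1 - c z)‖ ≤ 2 * b := by
      refine le_trans (norm_sub_le _ _) ?_
      rw [hx1b, hz1b]; linarith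
    have h3 : ‖(x1 - c x) - (z1 - c z)‖ ^ 2 ≤ 4 * b ^ 2 := by
      have := pow_le_pow_left₀ (norm_nonneg _) h2 2
      linarith [this, mul_pow 2 b 2]
    rw [e, norm_sub_sq_real, inner_sub_left]
    linarith
  have hmem : c x1 - c z1 ∈ Q z1 := hP2 z1 hz1 x1 hx1 hd1
  rw [hcx1, hcz1] at hmem
  -- second
  obtain ⟨z2, hz2, hcz2, hQz2, hiz2⟩ := hD z1 hz1 (c x - c z) hmem
  rw [hcz1] at hcz2 hiz2
  have e2 : c x - c z = -v := by rw [hv]; abel
  have hz1b' : ‖c z - z1‖ = b := by rw [norm_sub_rev]; exact hz1b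
  rw [e2, norm_neg, inner_neg_right, hz1b'] at hiz2
  have hz2b : ‖z2 - c z‖ = b := by rw [← hcz2]; exact hnb' z2 hz2
  set w := z2 - c x with hw
  have hwn : ‖w‖ ^ 2 ≤ ‖v‖ ^ 2 + b ^ 2 - 198 / 100 * (b * ‖v‖) := by
    have e : w = (z2 - c z) + v := by rw [hw, hv]; abel
    rw [e, norm_add_sq_real, hz2b]
    linarith
  obtain ⟨y, hy, hyW, hyQ⟩ := hF.partner x hx
  obtain ⟨hcy, hQy⟩ := hC.partner x hx y hy hyW hyQ
  obtain ⟨w1, hw1, w2, hw2, hww⟩ := (Q x).exists_add_mem_mem_orthogonal w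
  obtain ⟨x2, hx2, hcx2, hQx2, hix2⟩ := hD x hx w1 hw1
  have hw2' : w2 ∈ Q y := by rw [hQy]; exact hw2
  obtain ⟨y2, hy2, hcy2, hQy2, hiy2⟩ := hD y hy w2 hw2'
  rw [hcy] at hcy2 hiy2
  rw [hQy] at hQy2
  have hx2b : ‖x2 - c x‖ = b := by rw [← hcx2]; exact hnb' x2 hx2
  have hy2b : ‖y2 - c x‖ = b := by rw [← hcy2]; exact hnb' y2 hy2
  have hx2m : x2 - c x ∈ Q x := by
    have := hC.mem x2 hx2
    rw [hcx2, hQx2] at this
    have h2 := (Q x).neg_mem this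
    rwa [neg_sub] at h2
  have hy2m : y2 - c x ∈ (Q x)ᗮ := by
    have := hC.mem y2 hy2
    rw [hcy2, hQy2] at this
    have h2 := ((Q x)ᗮ).neg_mem this
    rwa [neg_sub] at h2
  have hx2w : 0 ≤ ⟪x2 - c x, w⟫ := by
    have h0 : ⟪x2 - c x, w2⟫ = 0 := Submodule.inner_right_of_mem_orthogonal hx2m hw2
    have h1 : ⟪x2 - c x, w⟫ = ⟪x2 - c x, w1⟫ := by
      conv_lhs => rw [hww, inner_add_right, h0, add_zero]
    rw [h1]
    refine le_trans ?_ hix2
    positivity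
  have hy2w : 0 ≤ ⟪y2 - c x, w⟫ := by
    have h0 : ⟪y2 - c x, w1⟫ = 0 := by
      rw [real_inner_comm]
      exact Submodule.inner_right_of_mem_orthogonal hw1 hy2m
    have h1 : ⟪y2 - c x, w⟫ = ⟪y2 - c x, w2⟫ := by
      conv_lhs => rw [hww, inner_add_right, h0, zero_add]
    rw [h1]
    refine le_trans ?_ hiy2
    positivity
  have hdx : ‖z2 - x2‖ ≤ 2 * R - W := by
    apply le_of_sq_le_sq _ hRW0
    refine le_trans ?_ num_2
    have e : z2 - x2 = w - (x2 - c x) := by rw [hw]; abel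
    rw [e, norm_sub_sq_real, hx2b, real_inner_comm]
    linarith
  have hdy : ‖z2 - y2‖ ≤ 2 * R - W := by
    apply le_of_sq_le_sq _ hRW0
    refine le_trans ?_ num_2
    have e : z2 - y2 = w - (y2 - c x) := by rw [hw]; abel
    rw [e, norm_sub_sq_real, hy2b, real_inner_comm]
    linarith
  have hxy : ‖y2 - x2‖ = W := by
    have e : y2 - x2 = (y2 - c x) - (x2 - c x) := by abel
    have h0 : ⟪y2 - c x, x2 - c x⟫ = 0 := by
      rw [real_inner_comm]
      exact Submodule.inner_right_of_mem_orthogonal hx2m hy2m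
    have h1 : ‖y2 - x2‖ ^ 2 = W ^ 2 := by
      rw [e, norm_sub_sq_real, h0, hx2b, hy2b]
      linarith
    exact (pow_left_inj₀ (norm_nonneg _) hW.le two_ne_zero).1 h1
  have hnot : y2 - x2 ∉ Q x2 := by
    intro hmem2
    rw [hQx2] at hmem2
    have h1 : y2 - c x ∈ Q x := by
      have := (Q x).add_mem hmem2 hx2m
      have e : y2 - x2 + (x2 - c x) = y2 - c x := by abel
      rwa [e] at this
    have h2 : ⟪y2 - c x, y2 - c x⟫ = 0 := Submodule.inner_right_of_mem_orthogonal h1 hy2m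
    rw [real_inner_self_eq_norm_sq, hy2b] at h2
    nlinarith
  have hfin := hP1 x2 hx2 y2 hy2 z2 hz2 hxy hnot hdx hdy
  rw [hcz2, hcx2] at hfin
  exact hne hfin.symm

/-- Packet L -/
theorem caseII4 [FiniteDimensional ℝ E] (hN : LemN5 E) (hc : Centers4 E) (hP : PairClaim E)
    (hD : LemD E) : CaseII4 E := by
  intro h4 X D R W Q hD0 hX hF hRW hne
  obtain ⟨c, hC⟩ := hc h4 X (2 * R) W Q hF hRW
  obtain ⟨hP1, hP2⟩ := hP h4 X D R W Q c hD0 hX hF hRW hC
  have hDD := hD h4 X D R W Q c hD0 hX hF hRW hC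
  have hW := hF.W_pos
  set b := Real.sqrt (W ^ 2 / 2) with hbdef
  have hb : 0 < b := Real.sqrt_pos.2 (by positivity)
  have hb2 : b ^ 2 = W ^ 2 / 2 := Real.sq_sqrt (by positivity)
  have hR0 : 0 < R := by linarith
  have ht : 0 < R + b := by linarith
  have hsep := sepClaim hF hC hRW hb hb2 hDD hP1 hP2
  have hs : Real.sqrt (5 / 2) ^ 2 = 5 / 2 := Real.sq_sqrt (by norm_num)
  have hs0 : 0 < Real.sqrt (5 / 2) := Real.sqrt_pos.2 (by norm_num)
  have hSD : SepDense (c '' X) (Real.sqrt (5 / 2) * (R + b)) (R + b) := by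
    constructor
    · rintro _ ⟨x, hx, rfl⟩ _ ⟨y, hy, rfl⟩ hxy
      have h1 := hsep x y hx hy hxy
      apply le_of_sq_le_sq _ (norm_nonneg _)
      rw [mul_pow, hs]
      exact h1.le
    · intro q
      obtain ⟨x, hx, hqx⟩ := hX.dens q
      refine ⟨c x, ⟨x, hx, rfl⟩, ?_⟩
      have h1 : ‖c x - x‖ = b := by
        have h := hC.norm x hx
        rw [← hb2] at h
        exact (pow_left_inj₀ (norm_nonneg _) hb.le two_ne_zero).1 h
      have e : q - c x = (q - x) - (c x - x) := by abel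
      rw [e]
      refine le_trans (norm_sub_le _ _) ?_
      rw [h1]
      linarith
  obtain ⟨p, hp, q, hq, hpq, hle⟩ := hN h4 (c '' X) _ _ (mul_pos hs0 ht) hSD
  obtain ⟨x, hx, rfl⟩ := hp
  obtain ⟨y, hy, rfl⟩ := hq
  have := hsep x y hx hy hpq
  linarith

end

end Pool.Agent.Helper74.C4
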